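import Pool.Agent.helper77.MC.Spec

set_option autoImplicit false

namespace Pool.Agent.helper77.MC

open Finset Numbering

theorem P1 (h1 : FA_stmt) : P1_stmt := by
  classical
  intro β _ y c m w hy hc hw hch
  obtain ⟨hA, hB, _⟩ := h1 β y c c m m hy hc
  have hanti : IsAntichain (· ⊆ ·) ((fam y c m : Finset (Finset β)) : Set (Finset β)) := by
    intro s hs t ht hne hsub
    exact hne (hB s (Finset.mem_coe.mp hs) t (Finset.mem_coe.mp ht) hsub)
  have hLYM : ∑ s ∈ fam y c m, ((((Fintype.card β).choose s.card : ℕ) : ℝ))⁻¹ ≤ 1 :=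
    Finset.lubell_yamamoto_meshalkin_inequality_sum_inv_choose (𝕜 := ℝ) hanti
  rcases Finset.eq_empty_or_nonempty (fam y c m) with he | he
  · rw [he]
    simpa using hw
  · have hpos : ∀ s ∈ fam y c m, (0 : ℝ) < ((Fintype.card β).choose s.card : ℝ) := by
      intro s _
      exact_mod_cast Nat.choose_pos (Finset.card_le_univ s)
    have hwpos : 0 < w := by
      obtain ⟨s, hs⟩ := he
      exact lt_of_lt_of_le (hpos s hs) (hch _ (hA s hs).2.1)
    have h2 : ∑ _s ∈ fam y c m, w⁻¹ ≤
        ∑ s ∈ fam y c m, ((((Fintype.card β).choose s.card : ℕ) : ℝ))⁻¹ := by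
      apply Finset.sum_le_sum
      intro s hs
      exact inv_anti₀ (hpos s hs) (hch _ (hA s hs).2.1)
    rw [Finset.sum_const, nsmul_eq_mul] at h2
    have h3 := h2.trans hLYM
    rw [← div_eq_mul_inv, div_le_one hwpos] at h3
    exact h3

end Pool.Agent.helper77.MC
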